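import Pool.Agent.W2helper57.TG.C

/-!
# Lines covering the triangular grid `T_2(n)`
-/

open Finset W2helper57.TG

namespace Pool.Agent.Results.MP_cee158_co.AllPlaneRates

/-- The triangular grid `T_d(n)`. -/
def grid (d n : ℕ) : Set (Fin d → ℤ) :=
  {x | (∀ i, 0 ≤ x i) ∧ ∑ i, x i ≤ (n : ℤ) - 1}

/-- An affine hyperplane of `ℝ^d`, given by an equation `∑ a_i x_i = b` with `a ≠ 0`. -/
structure Hyperplane (d : ℕ) where
  normal : Fin d → ℝ
  offset : ℝ
  normal_ne : normal ≠ 0

/-- The lattice point `x` lies on the hyperplane `h`. -/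
def Hyperplane.Contains {d : ℕ} (h : Hyperplane d) (x : Fin d → ℤ) : Prop :=
  ∑ i, h.normal i * (x i : ℝ) = h.offset

/-- The family `S` of hyperplanes (repetitions allowed) is a `k`-cover of `T_d(n)`. -/
def IsCover (n d k : ℕ) {ι : Type} (S : ι → Hyperplane d) : Prop :=
  ∀ x ∈ grid d n, k ≤ Nat.card {j : ι // (S j).Contains x}

/-- `f(n,d,k)`: the least size of a `k`-cover of `T_d(n)`. -/
noncomputable def f (n d k : ℕ) : ℕ :=
  sInf {m : ℕ | ∃ S : Fin m → Hyperplane d, IsCover n d k S}

/-- `C` is the linear rate `C_{d,k}`: `f(n,d,k) = C n + O(1)`. -/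
def IsRate (d k : ℕ) (C : ℝ) : Prop :=
  ∃ B : ℝ, ∀ n : ℕ, 1 ≤ n → |(f n d k : ℝ) - C * n| ≤ B

/-! ### The lower bound -/

lemma contains_two (h : Hyperplane 2) (a b : ℤ) :
    h.Contains ![a, b] ↔ h.normal 0 * (a : ℝ) + h.normal 1 * (b : ℝ) = h.offset := by
  simp [Hyperplane.Contains, Fin.sum_univ_two]

lemma normal_two (h : Hyperplane 2) : ¬ (h.normal 0 = 0 ∧ h.normal 1 = 0) := by
  rintro ⟨h0, h1⟩
  apply h.normal_ne
  funext i
  fin_cases i
  · exact h0
  · exact h1

lemma sum_w_le {m : ℕ} (n : ℕ) (par : Fin m → Prop) (c : Fin m → ℕ → Prop) [DecidablePred par]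
    [∀ t, DecidablePred (fun j => c j t)]
    (h1 : ∀ j, par j → ∀ t t', c j t → c j t' → t = t') :
    ∑ t ∈ range n, ((univ.filter par).filter (fun j => c j t)).card
      ≤ (univ.filter par).card := by
  calc ∑ t ∈ range n, ((univ.filter par).filter (fun j => c j t)).card
      = ∑ t ∈ range n, ∑ j ∈ univ.filter par, (if c j t then 1 else 0) := by
        simp only [Finset.card_filter]
    _ = ∑ j ∈ univ.filter par, ∑ t ∈ range n, (if c j t then 1 else 0) := Finset.sum_comm
    _ ≤ ∑ j ∈ univ.filter par, 1 := by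
        apply Finset.sum_le_sum
        intro j hj
        rw [← Finset.card_filter]
        apply Finset.card_le_one.mpr
        intro a ha b hb
        exact h1 j (Finset.mem_filter.mp hj).2 a b (Finset.mem_filter.mp ha).2
          (Finset.mem_filter.mp hb).2
    _ = (univ.filter par).card := by simp

/-- The combinatorial data of a `K`-cover. -/
lemma data {m n K : ℕ} (S : Fin m → Hyperplane 2) (hS : IsCover n 2 K S) :
    ∃ (w0 w1 w2 : ℕ → ℕ) (r : ℕ),
      (∀ j0 j1 j2, ∑ p ∈ J K j0 j1 j2, ((n : ℤ) - 1 - Lc n w0 j0 - Lc n w1 p.1 - Lc n w2 p.2)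
        + ∑ p ∈ J K j1 j2 j0, ((n : ℤ) - 1 - Lc n w1 j1 - Lc n w2 p.1 - Lc n w0 p.2)
        + ∑ p ∈ J K j2 j0 j1, ((n : ℤ) - 1 - Lc n w2 j2 - Lc n w0 p.1 - Lc n w1 p.2)
          ≤ 2 * (r : ℤ)) ∧
      ∑ t ∈ range n, w0 t + ∑ t ∈ range n, w1 t + ∑ t ∈ range n, w2 t + r ≤ m := by
  classical
  set p0 : Fin m → Prop := fun j => (S j).normal 1 = 0 with hp0
  set p1 : Fin m → Prop := fun j => (S j).normal 0 = 0 with hp1
  set p2 : Fin m → Prop := fun j => (S j).normal 0 = (S j).normal 1 with hp2
  set c0 : Fin m → ℕ → Prop := fun j t => (S j).normal 0 * (t : ℝ) = (S j).offset with hc0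
  set c1 : Fin m → ℕ → Prop := fun j t => (S j).normal 1 * (t : ℝ) = (S j).offset with hc1
  set c2 : Fin m → ℕ → Prop := fun j t =>
    (S j).normal 0 * ((n : ℝ) - 1 - (t : ℝ)) = (S j).offset with hc2
  set R : Finset (Fin m) := univ.filter (fun j => ¬ p0 j ∧ ¬ p1 j ∧ ¬ p2 j) with hR
  set P : ℕ → ℕ → ℕ → Fin m → Prop := fun x y _ j => (S j).Contains ![(x : ℤ), (y : ℤ)] with hP
  refine ⟨fun t => ((univ.filter p0).filter (fun j => c0 j t)).card,
    fun t => ((univ.filter p1).filter (fun j => c1 j t)).card,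
    fun t => ((univ.filter p2).filter (fun j => c2 j t)).card, R.card, ?_, ?_⟩
  · apply tri R P K n
    · -- coverage
      intro x y z hxyz
      have hcov : K ≤ (univ.filter (fun j => (S j).Contains ![(x : ℤ), (y : ℤ)])).card := by
        have := hS ![(x : ℤ), (y : ℤ)] ⟨by intro i; fin_cases i <;> simp,
          by simp only [Fin.sum_univ_two, Matrix.cons_val_zero, Matrix.cons_val_one]; omega⟩
        rwa [Nat.card_eq_fintype_card, Fintype.card_subtype] at this
      refine le_trans hcov ?_
      have hsub : univ.filter (fun j => (S j).Contains ![(x : ℤ), (y : ℤ)])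
          ⊆ ((((univ.filter p0).filter (fun j => c0 j x)) ∪
            ((univ.filter p1).filter (fun j => c1 j y))) ∪
            ((univ.filter p2).filter (fun j => c2 j z))) ∪ (R.filter (fun i => P x y z i)) := by
        intro j hj
        have hj' := (Finset.mem_filter.mp hj).2
        have hjc := (contains_two (S j) x y).mp hj'
        simp only [Finset.mem_union, Finset.mem_filter, Finset.mem_univ, true_and, hR]
        by_cases q0 : p0 j
        · refine Or.inl (Or.inl (Or.inl ⟨q0, ?_⟩))
          have e : (S j).normal 1 = 0 := q0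
          rw [e] at hjc
          change (S j).normal 0 * (x : ℝ) = (S j).offset
          push_cast at hjc
          linarith
        · by_cases q1 : p1 j
          · refine Or.inl (Or.inl (Or.inr ⟨q1, ?_⟩))
            have e : (S j).normal 0 = 0 := q1
            rw [e] at hjc
            change (S j).normal 1 * (y : ℝ) = (S j).offset
            push_cast at hjc
            linarith
          · by_cases q2 : p2 j
            · refine Or.inl (Or.inr ⟨q2, ?_⟩)
              have e : (S j).normal 0 = (S j).normal 1 := q2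
              rw [← e] at hjc
              change (S j).normal 0 * ((n : ℝ) - 1 - (z : ℝ)) = (S j).offset
              have hz : (x : ℝ) + y + z + 1 = n := by exact_mod_cast hxyz
              push_cast at hjc
              rw [← hjc, ← hz]
              ring
            · exact Or.inr ⟨⟨q0, q1, q2⟩, hj'⟩
      calc _ ≤ _ := Finset.card_le_card hsub
        _ ≤ _ := Finset.card_union_le _ _
        _ ≤ _ := by
          have a1 := Finset.card_union_le (((univ.filter p0).filter (fun j => c0 j x)) ∪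
            ((univ.filter p1).filter (fun j => c1 j y)))
            ((univ.filter p2).filter (fun j => c2 j z))
          have a2 := Finset.card_union_le ((univ.filter p0).filter (fun j => c0 j x))
            ((univ.filter p1).filter (fun j => c1 j y))
          omega
    · -- geometry
      intro j hj a0 a1 a2 s hs
      have hjR := (Finset.mem_filter.mp hj).2
      obtain ⟨n1, n0, n01⟩ : (S j).normal 1 ≠ 0 ∧ (S j).normal 0 ≠ 0 ∧
        (S j).normal 0 ≠ (S j).normal 1 := hjR
      have A0 : ((range s).filter (fun e => P a0 (a1 + (s - e)) (a2 + e) j)).card ≤ 1 := by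
        apply Finset.card_le_one.mpr
        intro e he e' he'
        have h := (contains_two _ _ _).mp (Finset.mem_filter.mp he).2
        have h' := (contains_two _ _ _).mp (Finset.mem_filter.mp he').2
        have r1 := Finset.mem_range.mp (Finset.mem_filter.mp he).1
        have r2 := Finset.mem_range.mp (Finset.mem_filter.mp he').1
        have := mul_left_cancel₀ n1 (show (S j).normal 1 * (((a1 + (s - e) : ℕ) : ℤ) : ℝ)
          = (S j).normal 1 * (((a1 + (s - e') : ℕ) : ℤ) : ℝ) by linarith)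
        have h3 : a1 + (s - e) = a1 + (s - e') := by exact_mod_cast this
        omega
      have A1 : ((range s).filter (fun e => P (a0 + e) a1 (a2 + (s - e)) j)).card ≤ 1 := by
        apply Finset.card_le_one.mpr
        intro e he e' he'
        have h := (contains_two _ _ _).mp (Finset.mem_filter.mp he).2
        have h' := (contains_two _ _ _).mp (Finset.mem_filter.mp he').2
        have := mul_left_cancel₀ n0 (show (S j).normal 0 * (((a0 + e : ℕ) : ℤ) : ℝ)
          = (S j).normal 0 * (((a0 + e' : ℕ) : ℤ) : ℝ) by linarith)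
        have h3 : a0 + e = a0 + e' := by exact_mod_cast this
        omega
      have A2 : ((range s).filter (fun e => P (a0 + (s - e)) (a1 + e) a2 j)).card ≤ 1 := by
        apply Finset.card_le_one.mpr
        intro e he e' he'
        have h := (contains_two _ _ _).mp (Finset.mem_filter.mp he).2
        have h' := (contains_two _ _ _).mp (Finset.mem_filter.mp he').2
        have r1 := Finset.mem_range.mp (Finset.mem_filter.mp he).1
        have r2 := Finset.mem_range.mp (Finset.mem_filter.mp he').1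
        push_cast [Nat.cast_sub r1.le, Nat.cast_sub r2.le] at h h'
        have := mul_left_cancel₀ (sub_ne_zero.mpr n01)
          (show ((S j).normal 0 - (S j).normal 1) * (e : ℝ)
          = ((S j).normal 0 - (S j).normal 1) * (e' : ℝ) by linarith)
        exact_mod_cast this
      by_contra hcon
      push Not at hcon
      have B0 : 0 < ((range s).filter (fun e => P a0 (a1 + (s - e)) (a2 + e) j)).card := by omega
      have B1 : 0 < ((range s).filter (fun e => P (a0 + e) a1 (a2 + (s - e)) j)).card := by omega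
      have B2 : 0 < ((range s).filter (fun e => P (a0 + (s - e)) (a1 + e) a2 j)).card := by omega
      obtain ⟨e0, he0⟩ := Finset.card_pos.mp B0
      obtain ⟨e1, he1⟩ := Finset.card_pos.mp B1
      obtain ⟨e2, he2⟩ := Finset.card_pos.mp B2
      have h0 := (contains_two _ _ _).mp (Finset.mem_filter.mp he0).2
      have h1 := (contains_two _ _ _).mp (Finset.mem_filter.mp he1).2
      have h2 := (contains_two _ _ _).mp (Finset.mem_filter.mp he2).2
      have r0 := Finset.mem_range.mp (Finset.mem_filter.mp he0).1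
      have r1 := Finset.mem_range.mp (Finset.mem_filter.mp he1).1
      have r2 := Finset.mem_range.mp (Finset.mem_filter.mp he2).1
      push_cast [Nat.cast_sub r0.le] at h0
      push_cast at h1
      push_cast [Nat.cast_sub r2.le] at h2
      have R0 : (e0 : ℝ) < s := by exact_mod_cast r0
      have R1 : (e1 : ℝ) < s := by exact_mod_cast r1
      have R2 : (e2 : ℝ) < s := by exact_mod_cast r2
      have P0 : (0 : ℝ) ≤ e0 := by positivity
      have P1 : (0 : ℝ) ≤ e1 := by positivity
      have P2 : (0 : ℝ) ≤ e2 := by positivity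
      exact geo ((S j).normal 0) ((S j).normal 1)
        ((S j).offset - (S j).normal 0 * a0 - (S j).normal 1 * a1) s (s - e0) e1 (s - e2)
        n1 (by linarith) (by linarith) P1 R1 (by linarith) (by linarith)
        (by linarith) (by linarith) (by linarith)
  · -- the total
    have t0 := sum_w_le n p0 c0 (by
      intro j hj t t' h h'
      have hne : (S j).normal 0 ≠ 0 := fun h0 => normal_two (S j) ⟨h0, hj⟩
      have := mul_left_cancel₀ hne (h.trans h'.symm)
      exact_mod_cast this)
    have t1 := sum_w_le n p1 c1 (by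
      intro j hj t t' h h'
      have hne : (S j).normal 1 ≠ 0 := fun h0 => normal_two (S j) ⟨hj, h0⟩
      have := mul_left_cancel₀ hne (h.trans h'.symm)
      exact_mod_cast this)
    have t2 := sum_w_le n p2 c2 (by
      intro j hj t t' h h'
      have e : (S j).normal 0 = (S j).normal 1 := hj
      have hne : (S j).normal 0 ≠ 0 := fun h0 => normal_two (S j) ⟨h0, e ▸ h0⟩
      have := mul_left_cancel₀ hne (h.trans h'.symm)
      have h2 : (t : ℝ) = t' := by linarith
      exact_mod_cast h2)
    have d1 : Disjoint (univ.filter p0) (univ.filter p1) := by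
      apply Finset.disjoint_filter.mpr
      intro j _ h h'
      exact normal_two (S j) ⟨h', h⟩
    have d2 : Disjoint ((univ.filter p0) ∪ (univ.filter p1)) (univ.filter p2) := by
      apply Finset.disjoint_left.mpr
      intro j hj hj'
      have e : (S j).normal 0 = (S j).normal 1 := (Finset.mem_filter.mp hj').2
      rcases Finset.mem_union.mp hj with hh | hh
      · have e1 : (S j).normal 1 = 0 := (Finset.mem_filter.mp hh).2
        exact normal_two (S j) ⟨e.trans e1, e1⟩
      · have e1 : (S j).normal 0 = 0 := (Finset.mem_filter.mp hh).2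
        exact normal_two (S j) ⟨e1, e ▸ e1⟩
    have d3 : Disjoint (((univ.filter p0) ∪ (univ.filter p1)) ∪ (univ.filter p2)) R := by
      apply Finset.disjoint_left.mpr
      intro j hj hj'
      have e := (Finset.mem_filter.mp hj').2
      rcases Finset.mem_union.mp hj with hh | hh
      · rcases Finset.mem_union.mp hh with hh | hh
        · exact e.1 (Finset.mem_filter.mp hh).2
        · exact e.2.1 (Finset.mem_filter.mp hh).2
      · exact e.2.2 (Finset.mem_filter.mp hh).2
    have htot : (univ.filter p0).card + (univ.filter p1).card + (univ.filter p2).card + R.card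
        ≤ m := by
      rw [← Finset.card_union_of_disjoint d1, ← Finset.card_union_of_disjoint d2,
        ← Finset.card_union_of_disjoint d3]
      calc _ ≤ (univ : Finset (Fin m)).card := Finset.card_le_univ _
        _ = m := by simp
    linarith

lemma lower {m n q : ℕ} (hq : 1 ≤ q) (S : Fin m → Hyperplane 2)
    (hS : IsCover n 2 (3 * q + 1) S) : (2 * (q : ℤ) + 1) * ((n : ℤ) - 1) ≤ m := by
  obtain ⟨w0, w1, w2, r, h1, h2⟩ := data S hS
  apply core q n m r hq _ _ _ h1
  have a0 := sum_Lc n (2 * q + 1) w0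
  have a1 := sum_Lc n (2 * q + 1) w1
  have a2 := sum_Lc n (2 * q + 1) w2
  omega

/-! ### Upper bounds -/

lemma f_le {n d k : ℕ} {ι : Type} [Fintype ι] (S : ι → Hyperplane d) (hS : IsCover n d k S) :
    f n d k ≤ Fintype.card ι := by
  apply Nat.sInf_le
  refine ⟨fun j => S ((Fintype.equivFin ι).symm j), ?_⟩
  intro x hx
  refine le_trans (hS x hx) (le_of_eq ?_)
  apply Nat.card_congr
  refine (Equiv.subtypeEquiv (Fintype.equivFin ι) ?_)
  intro a
  simp

lemma nonempty_cover {n d k : ℕ} {ι : Type} [Fintype ι] (S : ι → Hyperplane d)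
    (hS : IsCover n d k S) :
    {m : ℕ | ∃ S : Fin m → Hyperplane d, IsCover n d k S}.Nonempty := by
  refine ⟨Fintype.card ι, fun j => S ((Fintype.equivFin ι).symm j), ?_⟩
  intro x hx
  refine le_trans (hS x hx) (le_of_eq ?_)
  apply Nat.card_congr
  refine (Equiv.subtypeEquiv (Fintype.equivFin ι) ?_)
  intro a
  simp

/-- The line `x = t`. -/
noncomputable def lineX (t : ℝ) : Hyperplane 2 where
  normal := ![1, 0]
  offset := t
  normal_ne := by
    intro h
    have := congrFun h 0
    simp at this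

/-- The line `y = t`. -/
noncomputable def lineY (t : ℝ) : Hyperplane 2 where
  normal := ![0, 1]
  offset := t
  normal_ne := by
    intro h
    have := congrFun h 1
    simp at this

/-- The line `x + y = t`. -/
noncomputable def lineZ (t : ℝ) : Hyperplane 2 where
  normal := ![1, 1]
  offset := t
  normal_ne := by
    intro h
    have := congrFun h 0
    simp at this

lemma good_count (M n D t : ℕ) (hn : 1 ≤ n) (hD : 1 ≤ D) :
    M ≤ (univ.filter (fun j : Fin M => t < ((j : ℕ) + 1) * n / D + 1)).card + D * t / n := by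
  classical
  have h := Finset.card_filter_add_card_filter_not (s := (univ : Finset (Fin M)))
    (fun j : Fin M => t < ((j : ℕ) + 1) * n / D + 1)
  have h2 : (univ.filter (fun j : Fin M => ¬ t < ((j : ℕ) + 1) * n / D + 1)).card
      ≤ (Finset.Icc 1 (D * t / n)).card := by
    apply Finset.card_le_card_of_injOn (fun j : Fin M => (j : ℕ) + 1)
    · intro j hj
      have hj' := (Finset.mem_filter.mp hj).2
      push Not at hj'
      simp only [coe_Icc, Set.mem_Icc]
      refine ⟨by omega, ?_⟩
      rw [Nat.le_div_iff_mul_le hn]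
      have h3 : ((j : ℕ) + 1) * n / D ≤ t := by omega
      have h4 : ((j : ℕ) + 1) * n < (((j : ℕ) + 1) * n / D + 1) * D := by
        rw [mul_comm (((j : ℕ) + 1) * n / D + 1) D]
        exact Nat.lt_mul_div_succ _ hD
      calc ((j : ℕ) + 1) * n ≤ (((j : ℕ) + 1) * n / D + 1) * D := h4.le
        _ ≤ t * D := Nat.mul_le_mul_right _ hj'
        _ = D * t := by ring
    · intro a _ b _ hab
      simp only at hab
      exact Fin.ext (by omega)
  rw [Nat.card_Icc, Nat.add_sub_cancel] at h2
  rw [Finset.card_univ, Fintype.card_fin] at h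
  omega

lemma upper (n K M D : ℕ) (hn : 1 ≤ n) (hD : 1 ≤ D) (hK : K + D = 3 * M + 1) :
    (f n 2 K : ℝ) ≤ 3 * ((M : ℝ) * (M + 1) / 2 * (n / D) + M) := by
  classical
  let S : Fin 3 × (Σ j : Fin M, Fin (((j : ℕ) + 1) * n / D + 1)) → Hyperplane 2 := fun p =>
    if p.1 = 0 then lineX (p.2.2 : ℕ) else if p.1 = 1 then lineY (p.2.2 : ℕ)
      else lineZ ((n : ℝ) - 1 - (p.2.2 : ℕ))
  have hS : IsCover n 2 K S := by
    intro x hx
    obtain ⟨hx0, hx1⟩ := hx
    rw [Fin.sum_univ_two] at hx1
    have h0 := hx0 0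
    have h1 := hx0 1
    obtain ⟨a, ha⟩ := Int.eq_ofNat_of_zero_le h0
    obtain ⟨b, hb⟩ := Int.eq_ofNat_of_zero_le h1
    obtain ⟨c, hc⟩ := Int.eq_ofNat_of_zero_le (show (0 : ℤ) ≤ (n : ℤ) - 1 - x 0 - x 1 by omega)
    have hcR : (c : ℝ) = (n : ℝ) - 1 - (x 0 : ℝ) - (x 1 : ℝ) := by
      have : ((c : ℤ) : ℝ) = (((n : ℤ) - 1 - x 0 - x 1 : ℤ) : ℝ) := by rw [hc]
      push_cast at this
      exact this
    have habc : a + b + c + 1 = n := by omega
    let T : Fin 3 → ℕ := ![a, b, c]
    let A : Finset (Fin 3 × Fin M) :=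
      univ.filter (fun p => T p.1 < ((p.2 : ℕ) + 1) * n / D + 1)
    have hA : K ≤ A.card := by
      have e : A.card = ∑ i : Fin 3,
          (univ.filter (fun j : Fin M => T i < ((j : ℕ) + 1) * n / D + 1)).card := by
        simp only [A, Finset.card_filter, Fintype.sum_prod_type]
      rw [e, Fin.sum_univ_three]
      have g0 := good_count M n D a hn hD
      have g1 := good_count M n D b hn hD
      have g2 := good_count M n D c hn hD
      have s1 : D * a / n + D * b / n + D * c / n ≤ (D * a + D * b + D * c) / n :=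
        le_trans (Nat.add_le_add_right Nat.div_add_div_le_add_div _)
          Nat.div_add_div_le_add_div
      have s2 : (D * a + D * b + D * c) / n < D := by
        apply Nat.div_lt_of_lt_mul
        have : D * a + D * b + D * c = D * (a + b + c) := by ring
        rw [this]
        calc D * (a + b + c) < D * n := Nat.mul_lt_mul_of_pos_left (by omega) hD
          _ = n * D := by ring
      change K ≤ (univ.filter (fun j : Fin M => a < ((j : ℕ) + 1) * n / D + 1)).card
        + (univ.filter (fun j : Fin M => b < ((j : ℕ) + 1) * n / D + 1)).card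
        + (univ.filter (fun j : Fin M => c < ((j : ℕ) + 1) * n / D + 1)).card
      omega
    have hmem : ∀ p : {p // p ∈ A}, T p.1.1 < ((p.1.2 : ℕ) + 1) * n / D + 1 :=
      fun p => (Finset.mem_filter.mp p.2).2
    have hcon : ∀ p : {p // p ∈ A},
        (S (p.1.1, ⟨p.1.2, ⟨T p.1.1, hmem p⟩⟩)).Contains x := by
      intro p
      obtain ⟨⟨i, j⟩, hp⟩ := p
      fin_cases i
      · simp [S, T, Hyperplane.Contains, lineX, Fin.sum_univ_two, ha]
      · simp [S, T, Hyperplane.Contains, lineY, Fin.sum_univ_two, hb]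
      · simp only [S, T, Hyperplane.Contains, lineZ, Fin.sum_univ_two]
        simp
        linarith
    have hinj : Function.Injective (fun p : {p // p ∈ A} =>
        (⟨(p.1.1, ⟨p.1.2, ⟨T p.1.1, hmem p⟩⟩), hcon p⟩ :
          {p : Fin 3 × (Σ j : Fin M, Fin (((j : ℕ) + 1) * n / D + 1)) // (S p).Contains x})) := by
      intro p q hpq
      have e1 := congrArg (fun z => z.1.1) hpq
      have e2 := congrArg (fun z => z.1.2.1) hpq
      exact Subtype.ext (Prod.ext e1 e2)
    have h3 := Nat.card_le_card_of_injective _ hinj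
    have h4 : Nat.card {p // p ∈ A} = A.card := by simp
    omega
  have h := f_le S hS
  have hcard : Fintype.card (Fin 3 × (Σ j : Fin M, Fin (((j : ℕ) + 1) * n / D + 1)))
      = 3 * ∑ j ∈ range M, ((j + 1) * n / D + 1) := by
    rw [Fintype.card_prod, Fintype.card_sigma, Fintype.card_fin]
    simp only [Fintype.card_fin]
    rw [Fin.sum_univ_eq_sum_range (fun j => (j + 1) * n / D + 1)]
  rw [hcard] at h
  have hsum : ((∑ j ∈ range M, ((j + 1) * n / D + 1) : ℕ) : ℝ)
      ≤ (M : ℝ) * (M + 1) / 2 * (n / D) + M := by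
    clear h hcard hS S hK
    induction M with
    | zero => simp
    | succ M ih =>
      rw [Finset.sum_range_succ]
      have h5 : (((M + 1) * n / D : ℕ) : ℝ) ≤ (((M + 1) * n : ℕ) : ℝ) / D := Nat.cast_div_le
      push_cast at h5 ih ⊢
      have h6 : ((M : ℝ) + 1) * n / D = ((M : ℝ) + 1) * (n / D) := by ring
      rw [h6] at h5
      nlinarith
  have h7 : (f n 2 K : ℝ) ≤ ((3 * ∑ j ∈ range M, ((j + 1) * n / D + 1) : ℕ) : ℝ) := by
    exact_mod_cast h
  push_cast at h7 hsum
  linarith

/-! ### Conclusions -/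

lemma cover_exists (n k : ℕ) :
    IsCover n 2 k (fun p : Fin k × Fin n => lineX (p.2 : ℕ)) := by
  intro x hx
  obtain ⟨hx0, hx1⟩ := hx
  rw [Fin.sum_univ_two] at hx1
  have h0 := hx0 0
  have h1 := hx0 1
  obtain ⟨t, ht⟩ := Int.eq_ofNat_of_zero_le h0
  have htn : t < n := by omega
  have hinj : Function.Injective (fun i : Fin k =>
      (⟨(i, ⟨t, htn⟩), by simp [Hyperplane.Contains, lineX, Fin.sum_univ_two, ht]⟩ :
        {p : Fin k × Fin n // (lineX ((p.2 : ℕ) : ℝ)).Contains x})) := by
    intro a b hab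
    exact congrArg (fun z => z.1.1) hab
  have := Nat.card_le_card_of_injective _ hinj
  simpa using this

lemma f_attained (n k : ℕ) : ∃ S : Fin (f n 2 k) → Hyperplane 2, IsCover n 2 k S := by
  have hne : {m : ℕ | ∃ S : Fin m → Hyperplane 2, IsCover n 2 k S}.Nonempty := by
    refine ⟨Fintype.card (Fin k × Fin n),
      fun j => lineX (((Fintype.equivFin (Fin k × Fin n)).symm j).2 : ℕ), ?_⟩
    intro x hx
    refine le_trans (cover_exists n k x hx) (le_of_eq ?_)
    apply Nat.card_congr
    refine (Equiv.subtypeEquiv (Fintype.equivFin (Fin k × Fin n)) ?_)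
    intro a
    simp
  exact Nat.sInf_mem hne

lemma rate_unique {d k : ℕ} {C C' : ℝ} (h : IsRate d k C) (h' : IsRate d k C') : C = C' := by
  obtain ⟨B, hB⟩ := h
  obtain ⟨B', hB'⟩ := h'
  by_contra hne
  have hpos : 0 < |C - C'| := abs_pos.mpr (sub_ne_zero.mpr hne)
  obtain ⟨N, hN⟩ := exists_nat_gt ((B + B') / |C - C'|)
  rw [div_lt_iff₀ hpos] at hN
  have h1 := abs_le.mp (hB (N + 1) (by omega))
  have h2 := abs_le.mp (hB' (N + 1) (by omega))
  have h3 : |(C - C') * ((N + 1 : ℕ) : ℝ)| ≤ B + B' := by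
    rw [abs_le]
    constructor <;> nlinarith [h1.1, h1.2, h2.1, h2.2]
  rw [abs_mul, abs_of_nonneg (by positivity : (0 : ℝ) ≤ ((N + 1 : ℕ) : ℝ))] at h3
  push_cast at h3
  nlinarith

lemma lowerA {m n q : ℕ} (hq : 1 ≤ q) (S : Fin m → Hyperplane 2)
    (hS : IsCover n 2 (3 * q + 2) S) :
    3 * ((n : ℤ) - 1) * ((q + 1) * (2 * q + 1)) ≤ (3 * q + 2) * m := by
  obtain ⟨w0, w1, w2, r, h1, h2⟩ := data S hS
  have a0 := sum_Lc n (q + q + 2) w0
  have a1 := sum_Lc n (q + q + 2) w1
  have a2 := sum_Lc n (q + q + 2) w2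
  have h := core2 q q n m r (3 * q + 2) 1 hq (Or.inl rfl) (by ring) (by ring) _ _ _ h1 (by omega)
  have hpos : (0 : ℤ) < 2 * ((q : ℤ) + 1) := by positivity
  refine le_of_mul_le_mul_left ?_ hpos
  nlinarith

lemma lowerB {m n q : ℕ} (hq : 1 ≤ q) (S : Fin m → Hyperplane 2)
    (hS : IsCover n 2 (3 * q) S) :
    3 * ((n : ℤ) - 1) * (q * (2 * q + 1)) ≤ (3 * q + 1) * m := by
  obtain ⟨w0, w1, w2, r, h1, h2⟩ := data S hS
  obtain ⟨s, rfl⟩ : ∃ s, q = s + 1 := ⟨q - 1, by omega⟩
  have a0 := sum_Lc n (s + (s + 1) + 2) w0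
  have a1 := sum_Lc n (s + (s + 1) + 2) w1
  have a2 := sum_Lc n (s + (s + 1) + 2) w2
  have h := core2 (s + 1) s n m r (3 * (s + 1)) 2 hq (Or.inr rfl) (by push_cast; ring) (by ring)
    _ _ _ h1 (by omega)
  have hpos : (0 : ℤ) < 2 * ((s : ℤ) + 1) := by positivity
  refine le_of_mul_le_mul_left ?_ hpos
  push_cast at h ⊢
  nlinarith

lemma rate_mk (K M D : ℕ) (ρ : ℝ) (hD : 1 ≤ D) (hK : K + D = 3 * M + 1)
    (hρ : ρ * D = 3 * ((M : ℝ) * (M + 1) / 2))
    (hlow : ∀ n m : ℕ, ∀ S : Fin m → Hyperplane 2, IsCover n 2 K S → ρ * ((n : ℝ) - 1) ≤ m) :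
    IsRate 2 K ρ := by
  refine ⟨|ρ| + 3 * M, ?_⟩
  intro n hn
  obtain ⟨S, hS⟩ := f_attained n K
  have h1 := hlow n _ S hS
  have h2 := upper n K M D hn hD hK
  have hD' : (0 : ℝ) < D := by exact_mod_cast hD
  have h3 : 3 * ((M : ℝ) * (M + 1) / 2 * (n / D) + M) = ρ * n + 3 * M := by
    have : 3 * ((M : ℝ) * (M + 1) / 2 * (n / D) + M)
        = (3 * ((M : ℝ) * (M + 1) / 2)) * n / D + 3 * M := by ring
    rw [this, ← hρ]
    field_simp
  rw [h3] at h2
  have h4 := le_abs_self ρ
  have h5 := abs_nonneg ρ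
  have h6 : (0 : ℝ) ≤ 3 * (M : ℝ) := by positivity
  rw [abs_le]
  constructor <;> linarith

lemma rate1 (q : ℕ) (hq : 1 ≤ q) : IsRate 2 (3 * q + 1) (2 * q + 1) := by
  apply rate_mk (3 * q + 1) (2 * q) (3 * q) _ (by omega) (by ring)
  · push_cast
    ring
  · intro n m S hS
    have h1 := lower hq S hS
    exact_mod_cast h1

lemma rate2 (q : ℕ) (hq : 1 ≤ q) :
    IsRate 2 (3 * q + 2) (3 * ((q + 1) * (2 * q + 1)) / (3 * q + 2)) := by
  have hpos : (0 : ℝ) < 3 * (q : ℝ) + 2 := by positivity
  apply rate_mk (3 * q + 2) (2 * q + 1) (3 * q + 2) _ (by omega) (by ring)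
  · push_cast
    field_simp
    ring
  · intro n m S hS
    have h1 := lowerA hq S hS
    have h2 : 3 * ((n : ℝ) - 1) * (((q : ℝ) + 1) * (2 * q + 1)) ≤ (3 * q + 2) * m := by
      exact_mod_cast h1
    rw [div_mul_eq_mul_div, div_le_iff₀ hpos]
    linarith

lemma rate0 (q : ℕ) (hq : 1 ≤ q) :
    IsRate 2 (3 * q) (3 * (q * (2 * q + 1)) / (3 * q + 1)) := by
  have hpos : (0 : ℝ) < 3 * (q : ℝ) + 1 := by positivity
  apply rate_mk (3 * q) (2 * q) (3 * q + 1) _ (by omega) (by ring)
  · push_cast
    field_simp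
  · intro n m S hS
    have h1 := lowerB hq S hS
    have h2 : 3 * ((n : ℝ) - 1) * ((q : ℝ) * (2 * q + 1)) ≤ (3 * q + 1) * m := by
      exact_mod_cast h1
    rw [div_mul_eq_mul_div, div_le_iff₀ hpos]
    linarith

/-- an upper bound for the rate -/
lemma rate_le (K M D : ℕ) (C ρ : ℝ) (hD : 1 ≤ D) (hK : K + D = 3 * M + 1)
    (hρ : ρ * D = 3 * ((M : ℝ) * (M + 1) / 2)) (hC : IsRate 2 K C) : C ≤ ρ := by
  obtain ⟨B, hB⟩ := hC
  by_contra hcon
  push Not at hcon
  have hpos : 0 < C - ρ := by linarith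
  obtain ⟨N, hN⟩ := exists_nat_gt ((B + 3 * M) / (C - ρ))
  rw [div_lt_iff₀ hpos] at hN
  have h1 := (abs_le.mp (hB (N + 1) (by omega))).1
  have h2 := upper (N + 1) K M D (by omega) hD hK
  have hD' : (0 : ℝ) < D := by exact_mod_cast hD
  have h3 : 3 * ((M : ℝ) * (M + 1) / 2 * (((N + 1 : ℕ) : ℝ) / D) + M)
      = ρ * ((N + 1 : ℕ) : ℝ) + 3 * M := by
    have : 3 * ((M : ℝ) * (M + 1) / 2 * (((N + 1 : ℕ) : ℝ) / D) + M)
        = (3 * ((M : ℝ) * (M + 1) / 2)) * ((N + 1 : ℕ) : ℝ) / D + 3 * M := by ring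
    rw [this, ← hρ]
    field_simp
  rw [h3] at h2
  push_cast at h1 h2
  nlinarith

theorem result :
    (∀ q : ℕ, 1 ≤ q →
      IsRate 2 (3 * q) (3 * (q * (2 * q + 1)) / (3 * q + 1)) ∧
      IsRate 2 (3 * q + 1) (2 * q + 1) ∧
      IsRate 2 (3 * q + 2) (3 * ((q + 1) * (2 * q + 1)) / (3 * q + 2))) ∧
    (∀ k : ℕ, 1 ≤ k → ∀ C C' : ℝ, IsRate 2 k C → IsRate 2 (k + (2 + 1)) C' → C + 2 ≤ C') := by
  refine ⟨fun q hq => ⟨rate0 q hq, rate1 q hq, rate2 q hq⟩, ?_⟩
  intro k hk C C' hC hC'
  obtain ⟨q, hq | hq | hq⟩ : ∃ q, k = 3 * q ∨ k = 3 * q + 1 ∨ k = 3 * q + 2 :=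
    ⟨k / 3, by omega⟩
  · subst hq
    have hq1 : 1 ≤ q := by omega
    have e1 := rate_unique hC (rate0 q hq1)
    have e2 := rate_unique hC' (rate0 (q + 1) (by omega))
    rw [e1, e2]
    push_cast
    have p1 : (0 : ℝ) < 3 * (q : ℝ) + 1 := by positivity
    have p2 : (0 : ℝ) < 3 * ((q : ℝ) + 1) + 1 := by positivity
    rw [div_add' _ _ _ p1.ne', div_le_div_iff₀ p1 p2]
    nlinarith
  · subst hq
    rcases Nat.eq_zero_or_pos q with h | h
    · subst h
      have e1 := rate_le 1 1 3 C 1 (by norm_num) (by norm_num) (by norm_num) hC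
      have e2 := rate_unique hC' (rate1 1 le_rfl)
      rw [e2]
      push_cast
      linarith
    · have e1 := rate_unique hC (rate1 q h)
      have e2 := rate_unique hC' (rate1 (q + 1) (by omega))
      rw [e1, e2]
      push_cast
      linarith
  · subst hq
    rcases Nat.eq_zero_or_pos q with h | h
    · subst h
      have e1 := rate_le 2 1 2 C (3 / 2) (by norm_num) (by norm_num) (by norm_num) hC
      have e2 := rate_unique hC' (rate2 1 le_rfl)
      rw [e2]
      push_cast
      linarith
    · have e1 := rate_unique hC (rate2 q h)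
      have e2 := rate_unique hC' (rate2 (q + 1) (by omega))
      rw [e1, e2]
      push_cast
      have p1 : (0 : ℝ) < 3 * (q : ℝ) + 2 := by positivity
      have p2 : (0 : ℝ) < 3 * ((q : ℝ) + 1) + 2 := by positivity
      rw [div_add' _ _ _ p1.ne', div_le_div_iff₀ p1 p2]
      nlinarith

end Pool.Agent.Results.MP_cee158_co.AllPlaneRates
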